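import Mathlib

/-!
# Algebras of endomorphisms with a nondegenerate trace form are von Neumann regular
-/

namespace Pool.Agent.Y100.Sg

variable {K : Type*} [Field K] {V : Type*} [AddCommGroup V] [Module K V] [Module.Finite K V]

theorem exists_regular (A : Subalgebra K (Module.End K V))
    (h : ∀ x ∈ A, (∀ y ∈ A, LinearMap.trace K V (x * y) = 0) → x = 0)
    {a : Module.End K V} (ha : a ∈ A) : ∃ b ∈ A, a * b * a = a := by
  have : Module.Finite K A := inferInstance
  have hart : IsArtinianRing A := isArtinian_of_tower K inferInstance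
  have hj : Ring.jacobson A = ⊥ := by
    rw [eq_bot_iff]
    intro x hx
    rw [Submodule.mem_bot]
    obtain ⟨n, hn⟩ := IsSemiprimaryRing.isNilpotent (R := A)
    apply Subtype.ext
    apply h x.1 x.2
    intro y hy
    have h1 : x * ⟨y, hy⟩ ∈ Ring.jacobson A := by
      exact Ideal.mul_mem_right _ _ hx
    have h2 : (x * ⟨y, hy⟩) ^ n = 0 := by
      have h3 := Ideal.pow_mem_pow h1 n
      rw [hn] at h3
      simpa using h3
    have h4 : IsNilpotent (x.1 * y) := ⟨n, by
      have := congrArg Subtype.val h2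
      simpa using this⟩
    exact (LinearMap.isNilpotent_trace_of_isNilpotent h4).eq_zero
  have hss : IsSemisimpleRing A := IsArtinianRing.isSemisimpleRing_iff_jacobson.2 hj
  obtain ⟨e, he, hI⟩ := IsSemisimpleRing.ideal_eq_span_idempotent (Ideal.span {(⟨a, ha⟩ : A)})
  have h1 : e ∈ Ideal.span {(⟨a, ha⟩ : A)} := by
    rw [hI]; exact Ideal.subset_span rfl
  have h2 : (⟨a, ha⟩ : A) ∈ Ideal.span {e} := by
    rw [← hI]; exact Ideal.subset_span rfl
  obtain ⟨b, hb⟩ := Ideal.mem_span_singleton'.1 h1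
  obtain ⟨c, hc⟩ := Ideal.mem_span_singleton'.1 h2
  refine ⟨b.1, b.2, ?_⟩
  have h3 : (⟨a, ha⟩ : A) * e = ⟨a, ha⟩ := by
    rw [← hc, mul_assoc, he]
  rw [← hb] at h3
  have := congrArg Subtype.val h3
  simpa [mul_assoc] using this

end Pool.Agent.Y100.Sg
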