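import Pool.Agent.H914R2.KCorr

/-!
# Separation of one cohomology group from the cohomology of the other parity: definitions
-/

open CategoryTheory AlgebraicGeometry

universe u v

namespace Pool.Agent.Y100.Sg

open Pool.Agent.H914 VarClass Obj WeilCohomology

variable {k : Type u} [Field k] {𝒱 : VarClass k} {ops : CycleOps 𝒱}

/-- The group `H^i(T)` is separated from the cohomology of `T` of the other parity: some linear
combination (with coefficients in `K`) of algebraic correspondences of degree zero is the identity
on `H^i(T)`, and zero on all `H^j(T)` with `j` of the other parity than `i`. -/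
def Separated (W : WeilCohomology.{u, v} ops) (T : 𝒱.Obj) (i : ℕ) : Prop :=
  ∃ e ∈ KOp W T T 0, (∀ y ∈ W.gr T i, e y = y) ∧
    ∀ j, j % 2 ≠ i % 2 → ∀ y ∈ W.gr T j, e y = 0

end Pool.Agent.Y100.Sg
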