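import Pool.Agent.TH133.PW.Ev
import Pool.Agent.W534.QOp
import Pool.Agent.Y100.Sg.SepDefs

/-!
# The sign conjecture from the separation of the lower groups of one parity
-/

open CategoryTheory AlgebraicGeometry Finset

universe u v

namespace Pool.Agent.Y100.Sg

open Pool.Agent.H914 Pool.Agent.TH133.PW Pool.Agent.W534 Pool.Agent.H447 VarClass Obj
  WeilCohomology

variable {k : Type u} [Field k] {𝒱 : VarClass k} {ops : CycleOps 𝒱}
  {W : WeilCohomology.{u, v} ops} {X Y Z T : 𝒱.Obj}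

lemma kmul : ∀ a ∈ KOp W X X 0, ∀ b ∈ KOp W X X 0,
    (a * b : Module.End W.K (W.H X)) ∈ KOp W X X 0 :=
  fun _ ha _ hb => KOp.cast (KOp.comp ha hb) (by ring)

lemma kone : (1 : Module.End W.K (W.H X)) ∈ KOp W X X 0 := KOp.id X

/-- Degrees. -/
lemma kop_mem {d : ℤ} {φ : W.H X →ₗ[W.K] W.H Y} (hφ : φ ∈ KOp W X Y d) {i j : ℕ} {a : W.H X}
    (ha : a ∈ W.gr X i) (hij : (j : ℤ) = i + 2 * d) : φ a ∈ W.gr Y j := by
  have := KOp.isHom hφ i a (by rw [grZ_natCast]; exact ha)
  rwa [← hij, grZ_natCast] at this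

lemma kop_neg {d : ℤ} {φ : W.H X →ₗ[W.K] W.H Y} (hφ : φ ∈ KOp W X Y d) {i : ℕ} {a : W.H X}
    (ha : a ∈ W.gr X i) (hij : (i : ℤ) + 2 * d < 0) : φ a = 0 := by
  have := KOp.isHom hφ i a (by rw [grZ_natCast]; exact ha)
  rw [grZ_of_neg hij] at this
  exact (Submodule.mem_bot _).1 this

/-- The transpose. -/
lemma Separated.dual {j : ℕ} (hj : j ≤ 2 * Y.dim) (h : Separated W Y j) :
    Separated W Y (2 * Y.dim - j) := by
  obtain ⟨e, he, h1, h2⟩ := h
  obtain ⟨ψ, hψ, hadj⟩ := KOp.exists_adjoint he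
  have hψ0 : ψ ∈ KOp W Y Y 0 := KOp.cast hψ (by ring)
  refine ⟨ψ, hψ0, fun b hb => ?_, fun l hl b hb => ?_⟩
  · rw [← sub_eq_zero]
    apply nondeg_right
    intro c
    refine gr_induction (W.isInternal Y) (p := fun c => W.tr Y (c * (ψ b - b)) = 0) ?_ ?_ c
    · intro i c hc
      by_cases hi : i = j
      · subst hi
        rw [mul_sub, map_sub, ← hadj, h1 c hc, sub_self]
      · exact W.tr_eq_zero (W.mul_mem hc (Submodule.sub_mem _ (kop_gr hψ0 _ hb) hb)) (by omega)
    · intro c c' h1 h2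
      rw [add_mul, map_add, h1, h2, add_zero]
  · apply nondeg_right
    intro c
    refine gr_induction (W.isInternal Y) (p := fun c => W.tr Y (c * ψ b) = 0) ?_ ?_ c
    · intro i c hc
      by_cases hi : i + l = 2 * Y.dim
      · rw [← hadj, h2 i (by omega) c hc, zero_mul, map_zero]
      · exact W.tr_eq_zero (W.mul_mem hc (kop_gr hψ0 _ hb)) hi
    · intro c c' h1 h2
      rw [add_mul, map_add, h1, h2, add_zero]

/-- **The principle.** The sign conjecture follows from the separation of the groups `H^j` below the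
middle whose degree is of the other parity than the dimension. -/
theorem sign_of_separated
    (h : ∀ j < Y.dim, j % 2 ≠ Y.dim % 2 → Separated W Y j) : SignStd W Y := by
  have hall : ∀ j ≤ 2 * Y.dim, j % 2 ≠ Y.dim % 2 → Separated W Y j := by
    intro j hj hjn
    rcases lt_trichotomy j Y.dim with h1 | h1 | h1
    · exact h j h1 hjn
    · exact absurd (by rw [h1]) hjn
    · have h2 := (h (2 * Y.dim - j) (by omega) (by omega)).dual (by omega)
      rwa [show 2 * Y.dim - (2 * Y.dim - j) = j by omega] at h2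
  have key : ∀ m : ℕ, ∃ g ∈ KOp W Y Y 0,
      (∀ j < m, j % 2 ≠ Y.dim % 2 → ∀ y ∈ W.gr Y j, g y = 0) ∧
      ∀ j, j % 2 = Y.dim % 2 → ∀ y ∈ W.gr Y j, g y = y := by
    intro m
    induction m with
    | zero => exact ⟨1, kone, fun j hj => absurd hj (Nat.not_lt_zero _), fun j _ y _ => rfl⟩
    | succ m ih =>
      obtain ⟨g, hg, hg1, hg2⟩ := ih
      by_cases hm : m % 2 ≠ Y.dim % 2 ∧ m ≤ 2 * Y.dim
      · obtain ⟨e, he, he1, he2⟩ := hall m hm.2 hm.1
        refine ⟨g * (1 - e), kmul _ hg _ (Submodule.sub_mem _ kone he), ?_, ?_⟩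
        · intro j hj hjn y hy
          rw [Module.End.mul_apply, LinearMap.sub_apply, Module.End.one_apply]
          by_cases hjm : j = m
          · subst hjm
            rw [he1 y hy, sub_self, map_zero]
          · exact hg1 j (by omega) hjn _ (Submodule.sub_mem _ hy (kop_gr he j hy))
        · intro j hj y hy
          rw [Module.End.mul_apply, LinearMap.sub_apply, Module.End.one_apply,
            he2 j (by omega) y hy, sub_zero, hg2 j hj y hy]
      · refine ⟨g, hg, fun j hj hjn y hy => ?_, hg2⟩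
        by_cases hjm : j = m
        · subst hjm
          have h3 : 2 * Y.dim < j := by
            by_contra h4
            exact hm ⟨hjn, by omega⟩
          rw [W.gr_eq_bot Y j h3] at hy
          rw [(Submodule.mem_bot _).1 hy, map_zero]
        · exact hg1 j (by omega) hjn y hy
  obtain ⟨g, hg, hg1, hg2⟩ := key (2 * Y.dim + 1)
  have hg1' : ∀ j, j % 2 ≠ Y.dim % 2 → ∀ y ∈ W.gr Y j, g y = 0 := by
    intro j hj y hy
    by_cases h3 : 2 * Y.dim < j
    · rw [W.gr_eq_bot Y j h3] at hy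
      rw [(Submodule.mem_bot _).1 hy, map_zero]
    · exact hg1 j (by omega) hj y hy
  refine signStd_of_span ?_
  rw [EvenProjInSpan, span_cycleOperators0]
  by_cases hpar : Even Y.dim
  · have hpar' : Y.dim % 2 = 0 := Nat.even_iff.1 hpar
    refine ⟨g, hg, fun j a ha => ?_⟩
    split_ifs with hj
    · exact hg2 j (by rw [hpar']; exact Nat.even_iff.1 hj) a ha
    · exact hg1' j (by rw [hpar']; intro h0; exact hj (Nat.even_iff.2 h0)) a ha
  · have hpar' : Y.dim % 2 = 1 := Nat.odd_iff.1 (Nat.not_even_iff_odd.1 hpar)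
    refine ⟨1 - g, Submodule.sub_mem _ kone hg, fun j a ha => ?_⟩
    rw [LinearMap.sub_apply, Module.End.one_apply]
    split_ifs with hj
    · rw [hg1' j (by rw [hpar', Nat.even_iff.1 hj]; norm_num) a ha, sub_zero]
    · rw [hg2 j (by rw [hpar']; exact Nat.odd_iff.1 (Nat.not_even_iff_odd.1 hj)) a ha, sub_self]

/-- The projector on the part of a given parity, for a variety with the sign conjecture. -/
lemma exists_par (hX : SignStd W X) (i : ℕ) : ∃ π ∈ KOp W X X 0,
    (∀ j, j % 2 = i % 2 → ∀ y ∈ W.gr X j, π y = y) ∧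
    ∀ j, j % 2 ≠ i % 2 → ∀ y ∈ W.gr X j, π y = 0 := by
  obtain ⟨z, hz, hz'⟩ := hX
  have hE : W.corr (W.cl (X.prod X) z) ∈ KOp W X X 0 := KOp.gen (p := X.dim) (by ring) hz
  by_cases hi : Even i
  · refine ⟨_, hE, fun j hj y hy => ?_, fun j hj y hy => ?_⟩
    · rw [hz' j y hy, if_pos (Nat.even_iff.2 (by rw [hj]; exact Nat.even_iff.1 hi))]
    · rw [hz' j y hy, if_neg]
      intro h0
      rw [Nat.even_iff] at h0 hi
      omega
  · refine ⟨1 - W.corr (W.cl (X.prod X) z), Submodule.sub_mem _ kone hE,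
      fun j hj y hy => ?_, fun j hj y hy => ?_⟩
    · rw [LinearMap.sub_apply, Module.End.one_apply, hz' j y hy, if_neg, sub_zero]
      intro h0
      rw [Nat.even_iff] at h0 hi
      omega
    · rw [LinearMap.sub_apply, Module.End.one_apply, hz' j y hy, if_pos, sub_self]
      rw [Nat.even_iff] at hi ⊢
      omega

lemma separated_of_sign (hX : SignStd W X) (i : ℕ) : Separated W X i := by
  obtain ⟨π, hπ, h1, h2⟩ := exists_par hX i
  exact ⟨π, hπ, fun y hy => h1 i rfl y hy, h2⟩

end Pool.Agent.Y100.Sg
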