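import Pool.Agent.H914R2.CPart
import Pool.Agent.Y100.Sg.Sep

/-!
# The trace formula for two varieties and the nondegeneracy of the trace pairing
-/

open CategoryTheory AlgebraicGeometry Finset

universe u v

namespace Pool.Agent.Y100.Sg

open Pool.Agent.H914 Pool.Agent.TH133.PW Pool.Agent.W534 VarClass Obj
  WeilCohomology

variable {k : Type u} [Field k] {𝒱 : VarClass k} {ops : CycleOps 𝒱}
  {W : WeilCohomology.{u, v} ops} {X Y Z T : 𝒱.Obj}

/-- The correspondence given by the transpose of a product class. -/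
lemma corr_swap_tens {i j : ℕ} {a : W.H X} (ha : a ∈ W.gr X i) {b : W.H Y} (hb : b ∈ W.gr Y j)
    (y : W.H Y) : W.corr (W.map (swap Y X) (W.map (fst X Y) a * W.map (snd X Y) b)) y =
      W.tr Y (b * y) • a := by
  refine gr_induction (W.isInternal Y) (p := fun y =>
    W.corr (W.map (swap Y X) (W.map (fst X Y) a * W.map (snd X Y) b)) y =
      W.tr Y (b * y) • a) ?_ ?_ y
  swap
  · intro y y' h h'
    rw [map_add, h, h', mul_add, map_add, add_smul]
  intro l y hy
  rw [corr_apply, map_mul (W.map (swap Y X)), ← W.map_comp, ← W.map_comp, swap_fst, swap_snd,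
    W.comm (W.map_mem (snd Y X) ha) (W.map_mem (fst Y X) hb), smul_mul_assoc, mul_assoc,
    W.comm (W.map_mem (snd Y X) ha) (W.map_mem (fst Y X) hy), mul_smul_comm, ← mul_assoc,
    ← map_mul, map_smul, map_smul, push_snd, smul_smul, smul_smul]
  by_cases hjl : j + l = 2 * Y.dim
  · rw [← pow_add, ← mul_add, hjl, ← mul_assoc, mul_comm i 2, mul_assoc, pow_mul]
    simp
  · rw [W.tr_eq_zero (W.mul_mem hb hy) hjl, mul_zero]

/-- **The trace formula for two varieties.** -/
theorem trace_two {p : ℕ} {c : W.H (X.prod Y)} (hc : c ∈ W.gr (X.prod Y) (2 * p))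
    (w : W.H (X.prod Y)) :
    LinearMap.trace W.K (W.H Y) (par (W.isInternal Y) * (W.corr c ∘ₗ W.corr (W.map (swap Y X) w)))
      = W.tr (X.prod Y) (c * w) := by
  refine W.kunneth_induction (p := fun w =>
    LinearMap.trace W.K (W.H Y) (par (W.isInternal Y) * (W.corr c ∘ₗ
      W.corr (W.map (swap Y X) w))) = W.tr (X.prod Y) (c * w)) ?_ ?_ w
  · intro w w' h h'
    rw [map_add, corr_add, LinearMap.comp_add, mul_add, map_add, h, h', mul_add, map_add]
  intro i j a ha b hb
  have h1 : par (W.isInternal Y) * (W.corr c ∘ₗ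
      W.corr (W.map (swap Y X) (W.map (fst X Y) a * W.map (snd X Y) b))) =
      (W.tr Y ∘ₗ LinearMap.mulLeft W.K b).smulRight (par (W.isInternal Y) (W.corr c a)) := by
    apply LinearMap.ext
    intro y
    rw [Module.End.mul_apply, LinearMap.comp_apply, corr_swap_tens ha hb, map_smul, map_smul,
      LinearMap.smulRight_apply, LinearMap.comp_apply, LinearMap.mulLeft_apply]
  rw [h1]
  have htr : LinearMap.trace W.K (W.H Y) ((W.tr Y ∘ₗ LinearMap.mulLeft W.K b).smulRight
      (par (W.isInternal Y) (W.corr c a))) =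
      (W.tr Y ∘ₗ LinearMap.mulLeft W.K b) (par (W.isInternal Y) (W.corr c a)) :=
    LinearMap.trace_smulRight _ _
  rw [htr, LinearMap.comp_apply, LinearMap.mulLeft_apply]
  have e1 : W.tr (X.prod Y) (c * (W.map (fst X Y) a * W.map (snd X Y) b)) =
      W.tr Y (W.corr c a * b) := by
    rw [corr_apply, W.tr_push, mul_assoc]
  rw [e1]
  have h2 := W.push_mem (snd X Y) (W.mul_mem hc (W.map_mem (fst X Y) ha))
  rw [← corr_apply] at h2
  by_cases hneg : ((2 * p + i : ℕ) : ℤ) + 2 * ((Y.dim : ℤ) - (X.prod Y).dim) < 0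
  · rw [grZ_of_neg hneg] at h2
    rw [(Submodule.mem_bot _).1 h2]
    simp
  · obtain ⟨l, hl⟩ := Int.eq_ofNat_of_zero_le (not_lt.1 hneg)
    rw [hl, grZ_natCast] at h2
    rw [par, scal_apply _ _ h2, mul_smul_comm, map_smul, W.comm hb h2, map_smul, smul_smul]
    by_cases hjl : l + j = 2 * Y.dim
    · rw [← pow_add]
      have hev : Even (l + j * l) := by
        have : l + j * l = l * (j + 1) := by ring
        rw [this]
        rcases Nat.even_or_odd l with h | h
        · exact h.mul_right _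
        · apply Even.mul_left
          have h3 : Odd j := by
            by_contra h4
            rw [Nat.not_odd_iff_even] at h4
            have h5 : Odd (l + j) := h.add_even h4
            rw [hjl] at h5
            exact (Nat.not_even_iff_odd.2 h5) (even_two_mul _)
          exact h3.add_one
      rw [hev.neg_one_pow, one_smul]
    · rw [W.tr_eq_zero (W.mul_mem h2 hb) hjl, smul_zero]

/-- Under `D(X × Y)` the trace pairing between the combinations of correspondences from `X` to `Y`
and from `Y` to `X` is nondegenerate. -/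
theorem kop_nondeg (hD : HomEqNum W (X.prod Y)) {d : ℤ} {φ : W.H X →ₗ[W.K] W.H Y}
    (hφ : φ ∈ KOp W X Y d) (h : ∀ ψ ∈ KOp W Y X (-d),
      LinearMap.trace W.K (W.H Y) (par (W.isInternal Y) * (φ ∘ₗ ψ)) = 0) : φ = 0 := by
  obtain ⟨γ, hγ, rfl⟩ := mem_KOp_iff.1 hφ
  by_cases hneg : (X.dim : ℤ) + d < 0
  · have h0 : γ = 0 := by
      have h1 := spanCycles_deg hγ
      rw [grZ_of_neg (by omega)] at h1
      exact (Submodule.mem_bot _).1 h1
    rw [h0, corr_zero]
  obtain ⟨l, hl⟩ := Int.eq_ofNat_of_zero_le (not_lt.1 hneg)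
  rw [hl] at hγ
  by_cases hbig : X.dim + Y.dim < l
  · have h0 : γ = 0 := by
      have h1 := span_gr hγ
      rw [W.gr_eq_bot _ _ (by rw [dim_prod]; omega)] at h1
      exact (Submodule.mem_bot _).1 h1
    rw [h0, corr_zero]
  have h0 : γ = 0 := by
    refine cNondeg hD (l' := X.dim + Y.dim - l) (by rw [dim_prod]; omega) hγ ?_
    rintro _ ⟨z, hz, rfl⟩
    have h1 : W.corr (W.cl _ (ops.pull (swap Y X) z)) ∈ KOp W Y X (-d) :=
      KOp.gen (p := X.dim + Y.dim - l) (by omega) (ops.pull_mem _ hz)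
    have h2 := h _ h1
    rw [W.cl_pull, trace_two (span_gr hγ)] at h2
    rw [bil_apply]
    exact h2
  rw [h0, corr_zero]

end Pool.Agent.Y100.Sg
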