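import Pool.Agent.H914R2.Span
import Pool.Agent.Y100.Sg.TwoTr
import Pool.Agent.Y100.Sg.Reg

/-!
# Matrices of correspondences between varieties with `D` and the sign conjecture
-/

open CategoryTheory AlgebraicGeometry Finset

universe u v

namespace Pool.Agent.Y100.Sg

open Pool.Agent.H914 Pool.Agent.TH133.PW Pool.Agent.W534 Pool.Agent.H447 VarClass Obj
  WeilCohomology

variable {k : Type u} [Field k] {𝒱 : VarClass k} {ops : CycleOps 𝒱}
  {W : WeilCohomology.{u, v} ops} {X Y Z : 𝒱.Obj}

/-- The combinations of correspondences of all degrees. -/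
def allOp (W : WeilCohomology.{u, v} ops) (X Y : 𝒱.Obj) :
    Submodule W.K (W.H X →ₗ[W.K] W.H Y) := ⨆ d : ℤ, KOp W X Y d

lemma kop_le {d : ℤ} {φ : W.H X →ₗ[W.K] W.H Y} (h : φ ∈ KOp W X Y d) : φ ∈ allOp W X Y :=
  Submodule.mem_iSup_of_mem d h

lemma allOp_comp {φ : W.H X →ₗ[W.K] W.H Y} {ψ : W.H Y →ₗ[W.K] W.H Z}
    (hψ : ψ ∈ allOp W Y Z) (hφ : φ ∈ allOp W X Y) : ψ ∘ₗ φ ∈ allOp W X Z := by
  refine Submodule.iSup_induction _ (motive := fun ψ => ψ ∘ₗ φ ∈ allOp W X Z) hψ ?_ ?_ ?_
  · intro d ψ hψ
    refine Submodule.iSup_induction _ (motive := fun φ => ψ ∘ₗ φ ∈ allOp W X Z) hφ ?_ ?_ ?_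
    · intro e φ hφ
      exact kop_le (KOp.comp hψ hφ)
    · rw [LinearMap.comp_zero]; exact Submodule.zero_mem _
    · intro a b ha hb
      rw [LinearMap.comp_add]; exact Submodule.add_mem _ ha hb
  · rw [LinearMap.zero_comp]; exact Submodule.zero_mem _
  · intro a b ha hb
    rw [LinearMap.add_comp]; exact Submodule.add_mem _ ha hb

/-- The degree of a homogeneous operator. -/
lemma isHom_kop {d : ℤ} {φ : W.H X →ₗ[W.K] W.H X} (h : φ ∈ KOp W X X d) :
    IsHom (W.gr X) (2 * d) φ := fun i a ha => KOp.isHom h i a ha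

/-- Nondegeneracy for the combinations of correspondences of all degrees. -/
theorem allOp_nondeg (hD : HomEqNum W (X.prod Y)) {φ : W.H X →ₗ[W.K] W.H Y}
    (hφ : φ ∈ allOp W X Y) (h : ∀ e : ℤ, ∀ ψ ∈ KOp W Y X e,
      LinearMap.trace W.K (W.H Y) (par (W.isInternal Y) * (φ ∘ₗ ψ)) = 0) : φ = 0 := by
  obtain ⟨f, hf, rfl⟩ := (Submodule.mem_iSup_iff_exists_finsupp _ _).1 hφ
  have h0 : ∀ d, f d = 0 := by
    intro d
    refine kop_nondeg hD (hf d) fun ψ hψ => ?_
    have h1 := h _ ψ hψ
    have h2 : (f.sum fun _ x => x) ∘ₗ ψ = ∑ e ∈ f.support, (f e) ∘ₗ ψ := by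
      apply LinearMap.ext
      intro x
      rw [Finsupp.sum, LinearMap.comp_apply, LinearMap.sum_apply, LinearMap.sum_apply]
      rfl
    rw [h2, Finset.mul_sum, map_sum] at h1
    by_cases hd : d ∈ f.support
    · rw [Finset.sum_eq_single d] at h1
      · exact h1
      · intro e _ he
        have h3 : IsHom (W.gr Y) (2 * (-d + e)) ((f e) ∘ₗ ψ) := isHom_kop (KOp.comp (hf e) hψ)
        have h4 := (isHom_scal (W.isInternal Y) (fun i => (-1 : W.K) ^ i)).mul h3
        exact trace_of_isHom (W.isInternal Y) (d := 0 + 2 * (-d + e)) (by omega) h4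
      · intro h3; exact absurd hd h3
    · rw [Finsupp.notMem_support_iff.1 hd, LinearMap.zero_comp, mul_zero, map_zero]
  rw [Finsupp.sum]
  exact Finset.sum_eq_zero fun d _ => h0 d

variable {ι : Type*} [Fintype ι] [DecidableEq ι]

/-- The entries of an operator on a direct sum. -/
noncomputable def entry (T : ι → 𝒱.Obj) (f : Module.End W.K (∀ i, W.H (T i))) (i j : ι) :
    W.H (T j) →ₗ[W.K] W.H (T i) :=
  LinearMap.proj i ∘ₗ f ∘ₗ LinearMap.single W.K (fun i => W.H (T i)) j

omit [Fintype ι] in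
lemma entry_add (T : ι → 𝒱.Obj) (f g : Module.End W.K (∀ i, W.H (T i))) (i j : ι) :
    entry T (f + g) i j = entry T f i j + entry T g i j := by
  rw [entry, LinearMap.add_comp, LinearMap.comp_add]; rfl

lemma entry_mul (T : ι → 𝒱.Obj) (f g : Module.End W.K (∀ i, W.H (T i))) (i j : ι) :
    entry T (f * g) i j = ∑ l, entry T f i l ∘ₗ entry T g l j := by
  apply LinearMap.ext
  intro x
  rw [LinearMap.sum_apply]
  simp only [entry, LinearMap.comp_apply, LinearMap.proj_apply, Module.End.mul_apply,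
    LinearMap.single_apply]
  have h1 : g (Pi.single j x) = ∑ l, Pi.single l (g (Pi.single j x) l) := by
    rw [LinearMap.sum_single_apply]
  conv_lhs => rw [h1, map_sum, Finset.sum_apply]

lemma entry_ext (T : ι → 𝒱.Obj) {f g : Module.End W.K (∀ i, W.H (T i))}
    (h : ∀ i j, entry T f i j = entry T g i j) : f = g := by
  apply LinearMap.pi_ext
  intro j x
  funext i
  have := congrArg (fun φ => φ x) (h i j)
  simpa [entry] using this

/-- The algebra of matrices of combinations of correspondences between the varieties `T i`. -/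
noncomputable def matAlg (W : WeilCohomology.{u, v} ops) (T : ι → 𝒱.Obj) :
    Subalgebra W.K (Module.End W.K (∀ i, W.H (T i))) where
  carrier := {f | ∀ i j, entry T f i j ∈ allOp W (T j) (T i)}
  mul_mem' := by
    intro f g hf hg i j
    rw [entry_mul]
    exact Submodule.sum_mem _ fun l _ => allOp_comp (hf i l) (hg l j)
  add_mem' := by
    intro f g hf hg i j
    rw [entry_add]
    exact Submodule.add_mem _ (hf i j) (hg i j)
  algebraMap_mem' := by
    intro r i j
    have h1 : entry T (algebraMap W.K (Module.End W.K (∀ i, W.H (T i))) r) i j =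
        r • (LinearMap.proj i ∘ₗ LinearMap.single W.K (fun i => W.H (T i)) j) := by
      apply LinearMap.ext
      intro x
      simp [entry, Algebra.algebraMap_eq_smul_one]
    rw [h1]
    apply Submodule.smul_mem
    by_cases hij : i = j
    · subst hij
      have h2 : (LinearMap.proj i ∘ₗ LinearMap.single W.K (fun i => W.H (T i)) i) =
          (LinearMap.id : W.H (T i) →ₗ[W.K] W.H (T i)) := by
        apply LinearMap.ext
        intro x
        simp
      rw [h2]
      exact kop_le (KOp.id _)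
    · have h2 : (LinearMap.proj i ∘ₗ LinearMap.single W.K (fun i => W.H (T i)) j) =
          (0 : W.H (T j) →ₗ[W.K] W.H (T i)) := by
        apply LinearMap.ext
        intro x
        simp [hij]
      rw [h2]
      exact Submodule.zero_mem _

lemma mem_matAlg {T : ι → 𝒱.Obj} {f : Module.End W.K (∀ i, W.H (T i))} :
    f ∈ matAlg W T ↔ ∀ i j, entry T f i j ∈ allOp W (T j) (T i) := Iff.rfl

/-- The matrix with one entry. -/
noncomputable def unitOp (T : ι → 𝒱.Obj) (j i : ι) (ψ : W.H (T i) →ₗ[W.K] W.H (T j)) :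
    Module.End W.K (∀ i, W.H (T i)) :=
  LinearMap.single W.K (fun i => W.H (T i)) j ∘ₗ ψ ∘ₗ LinearMap.proj i

lemma unitOp_mem {T : ι → 𝒱.Obj} {j i : ι} {ψ : W.H (T i) →ₗ[W.K] W.H (T j)}
    (hψ : ψ ∈ allOp W (T i) (T j)) : unitOp T j i ψ ∈ matAlg W T := by
  intro a b
  by_cases ha : a = j
  · by_cases hb : b = i
    · subst ha; subst hb
      have : entry T (unitOp T a b ψ) a b = ψ := by
        apply LinearMap.ext
        intro x
        simp [entry, unitOp]
      rw [this]; exact hψ
    · have : entry T (unitOp T j i ψ) a b = 0 := by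
        apply LinearMap.ext
        intro x
        simp [entry, unitOp, Ne.symm hb]
      rw [this]; exact Submodule.zero_mem _
  · have : entry T (unitOp T j i ψ) a b = 0 := by
      apply LinearMap.ext
      intro x
      simp [entry, unitOp, ha]
    rw [this]; exact Submodule.zero_mem _

/-- The parity operator. -/
lemma par_mem (hX : SignStd W X) : par (W.isInternal X) ∈ allOp W X X := by
  obtain ⟨π, hπ, h1, h2⟩ := exists_par hX 0
  have h3 : par (W.isInternal X) = (2 : W.K) • π - LinearMap.id := by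
    apply gr_ext (W.isInternal X)
    intro i x hx
    rw [par, scal_apply _ _ hx, LinearMap.sub_apply, LinearMap.smul_apply, LinearMap.id_apply]
    rcases Nat.even_or_odd i with hi | hi
    · rw [h1 i (by rw [Nat.even_iff.1 hi]) x hx, hi.neg_one_pow]
      module
    · rw [h2 i (by rw [Nat.odd_iff.1 hi]; norm_num) x hx, hi.neg_one_pow]
      module
  rw [h3]
  exact kop_le (Submodule.sub_mem _ (Submodule.smul_mem _ _ hπ) (KOp.id X))

/-- **The algebra of matrices of correspondences is von Neumann regular.** -/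
theorem matAlg_regular {T : ι → 𝒱.Obj} (hD : ∀ i j, HomEqNum W ((T i).prod (T j)))
    (hC : ∀ i, SignStd W (T i)) {a : Module.End W.K (∀ i, W.H (T i))} (ha : a ∈ matAlg W T) :
    ∃ b ∈ matAlg W T, a * b * a = a := by
  refine exists_regular (matAlg W T) (fun x hx h => ?_) ha
  apply entry_ext T
  intro i j
  rw [show entry T (0 : Module.End W.K (∀ i, W.H (T i))) i j = 0 by
    apply LinearMap.ext; intro y; simp [entry]]
  refine allOp_nondeg (hD j i) (hx i j) fun e ψ hψ => ?_
  have h1 := h _ (unitOp_mem (allOp_comp (kop_le hψ) (par_mem (hC i))))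
  have h2 : x * unitOp T j i (ψ ∘ₗ par (W.isInternal (T i))) =
      (x ∘ₗ LinearMap.single W.K (fun i => W.H (T i)) j ∘ₗ ψ ∘ₗ par (W.isInternal (T i))) ∘ₗ
        LinearMap.proj i := rfl
  rw [h2, LinearMap.trace_comp_comm'] at h1
  rw [LinearMap.trace_mul_comm]
  exact h1

end Pool.Agent.Y100.Sg
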