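import Pool.Agent.Y100.Sg.Sep

/-!
# The sign conjecture from the separation of the groups of one parity up to the middle
-/

open CategoryTheory AlgebraicGeometry Finset

universe u v

namespace Pool.Agent.Y100.Sg

open Pool.Agent.H914 Pool.Agent.TH133.PW Pool.Agent.W534 Pool.Agent.H447 VarClass Obj
  WeilCohomology

variable {k : Type u} [Field k] {𝒱 : VarClass k} {ops : CycleOps 𝒱}
  {W : WeilCohomology.{u, v} ops} {X Y Z T : 𝒱.Obj}

/-- **The principle.** The sign conjecture follows from the separation of the groups `H^j` with `j`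
of one parity and at most the dimension. -/
theorem sign_of_separated_par (ε : ℕ)
    (h : ∀ j ≤ Y.dim, j % 2 = ε % 2 → Separated W Y j) : SignStd W Y := by
  have hall : ∀ j ≤ 2 * Y.dim, j % 2 = ε % 2 → Separated W Y j := by
    intro j hj hjn
    rcases le_or_gt j Y.dim with h1 | h1
    · exact h j h1 hjn
    · have h2 := (h (2 * Y.dim - j) (by omega) (by omega)).dual (by omega)
      rwa [show 2 * Y.dim - (2 * Y.dim - j) = j by omega] at h2
  have key : ∀ m : ℕ, ∃ g ∈ KOp W Y Y 0,
      (∀ j < m, j % 2 = ε % 2 → ∀ y ∈ W.gr Y j, g y = 0) ∧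
      ∀ j, j % 2 ≠ ε % 2 → ∀ y ∈ W.gr Y j, g y = y := by
    intro m
    induction m with
    | zero => exact ⟨1, kone, fun j hj => absurd hj (Nat.not_lt_zero _), fun j _ y _ => rfl⟩
    | succ m ih =>
      obtain ⟨g, hg, hg1, hg2⟩ := ih
      by_cases hm : m % 2 = ε % 2 ∧ m ≤ 2 * Y.dim
      · obtain ⟨e, he, he1, he2⟩ := hall m hm.2 hm.1
        refine ⟨g * (1 - e), kmul _ hg _ (Submodule.sub_mem _ kone he), ?_, ?_⟩
        · intro j hj hjn y hy
          rw [Module.End.mul_apply, LinearMap.sub_apply, Module.End.one_apply]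
          by_cases hjm : j = m
          · subst hjm
            rw [he1 y hy, sub_self, map_zero]
          · exact hg1 j (by omega) hjn _ (Submodule.sub_mem _ hy (kop_gr he j hy))
        · intro j hj y hy
          rw [Module.End.mul_apply, LinearMap.sub_apply, Module.End.one_apply,
            he2 j (by omega) y hy, sub_zero, hg2 j hj y hy]
      · refine ⟨g, hg, fun j hj hjn y hy => ?_, hg2⟩
        by_cases hjm : j = m
        · subst hjm
          have h3 : 2 * Y.dim < j := by
            by_contra h4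
            exact hm ⟨hjn, by omega⟩
          rw [W.gr_eq_bot Y j h3] at hy
          rw [(Submodule.mem_bot _).1 hy, map_zero]
        · exact hg1 j (by omega) hjn y hy
  obtain ⟨g, hg, hg1, hg2⟩ := key (2 * Y.dim + 1)
  have hg1' : ∀ j, j % 2 = ε % 2 → ∀ y ∈ W.gr Y j, g y = 0 := by
    intro j hj y hy
    by_cases h3 : 2 * Y.dim < j
    · rw [W.gr_eq_bot Y j h3] at hy
      rw [(Submodule.mem_bot _).1 hy, map_zero]
    · exact hg1 j (by omega) hj y hy
  refine signStd_of_span ?_
  rw [EvenProjInSpan, span_cycleOperators0]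
  by_cases hpar : Odd ε
  · have hpar' : ε % 2 = 1 := Nat.odd_iff.1 hpar
    refine ⟨g, hg, fun j a ha => ?_⟩
    split_ifs with hj
    · exact hg2 j (by rw [hpar', Nat.even_iff.1 hj]; norm_num) a ha
    · exact hg1' j (by rw [hpar']; exact Nat.odd_iff.1 (Nat.not_even_iff_odd.1 hj)) a ha
  · have hpar' : ε % 2 = 0 := Nat.even_iff.1 (Nat.not_odd_iff_even.1 hpar)
    refine ⟨1 - g, Submodule.sub_mem _ kone hg, fun j a ha => ?_⟩
    rw [LinearMap.sub_apply, Module.End.one_apply]
    split_ifs with hj
    · rw [hg1' j (by rw [hpar']; exact Nat.even_iff.1 hj) a ha, sub_zero]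
    · rw [hg2 j (by rw [hpar', Nat.odd_iff.1 (Nat.not_even_iff_odd.1 hj)]; norm_num) a ha,
        sub_self]

end Pool.Agent.Y100.Sg
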