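import Pool.Agent.H914R2.KCorr

/-!
# Operators which factor through other varieties, and operators supported in codimension `c`
-/

open CategoryTheory AlgebraicGeometry

universe u v

namespace Pool.Agent.Y100.Sg

open Pool.Agent.H914 VarClass Obj WeilCohomology

variable {k : Type u} [Field k] {𝒱 : VarClass k} {ops : CycleOps 𝒱}

/-- The operators of degree zero on `H(Y)` which factor through varieties of the class `C`: the
`K`-linear combinations of the composites `H(Y) → H(X) → H(Y)` of algebraic correspondences of
opposite degrees, with `X` in `C`. -/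
def throughOp (W : WeilCohomology.{u, v} ops) (Y : 𝒱.Obj) (C : Set 𝒱.Obj) :
    Submodule W.K (W.H Y →ₗ[W.K] W.H Y) :=
  Submodule.span W.K {φ | ∃ X ∈ C, ∃ d : ℤ, ∃ g ∈ KOp W X Y d, ∃ h ∈ KOp W Y X (-d), g ∘ₗ h = φ}

/-- The operators of degree zero on `H(Y)` given by correspondences supported on `Y × Z` with `Z`
of codimension `c` in `Y`: the `K`-linear combinations of the composites of an algebraic
correspondence `H(Y) → H(E)` of degree `-c` and the push-forward `H(E) → H(Y)` along a morphism
`E ⟶ Y` from a variety of dimension `dim Y - c`. -/
def supportedOp (W : WeilCohomology.{u, v} ops) (Y : 𝒱.Obj) (c : ℕ) :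
    Submodule W.K (W.H Y →ₗ[W.K] W.H Y) :=
  Submodule.span W.K {φ | ∃ (E : 𝒱.Obj) (f : E ⟶ Y), E.dim + c = Y.dim ∧
    ∃ τ ∈ KOp W Y E (-c), W.push f ∘ₗ τ = φ}

/-- The class of the diagonal of `Y` is, modulo correspondences supported on `Y × Z` with `Z` of
codimension `c`, a combination of correspondences which factor through varieties of the class `C`.
For `c = 1` this says that the birational motive of `Y` is a direct summand of a sum of (Tate twists
of) birational motives of varieties of the class `C`, modulo homological equivalence and with
coefficients in `K`. -/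
def ComesFrom (W : WeilCohomology.{u, v} ops) (Y : 𝒱.Obj) (C : Set 𝒱.Obj) (c : ℕ) : Prop :=
  LinearMap.id ∈ throughOp W Y C ⊔ supportedOp W Y c

end Pool.Agent.Y100.Sg
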