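import Pool.Agent.Y100.Sg.Sep
import Pool.Agent.Y100.Sg.ThrDefs
import Pool.Agent.W534.Top
import Pool.Agent.W550.B.AddDefs

/-!
# The sign conjecture and birational motives
-/

open CategoryTheory AlgebraicGeometry Finset

universe u v

namespace Pool.Agent.Y100.Sg

open Pool.Agent.H914 Pool.Agent.TH133.PW Pool.Agent.W534 Pool.Agent.H447 Pool.Agent.W550.B
  VarClass Obj WeilCohomology

variable {k : Type u} [Field k] {𝒱 : VarClass k} {ops : CycleOps 𝒱}
  {W : WeilCohomology.{u, v} ops} {X Y Z T : 𝒱.Obj}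

/-- `φ` agrees on `H^j(Y)` with a combination of correspondences which kills the cohomology of the
other parity. -/
def Lifts (W : WeilCohomology.{u, v} ops) (Y : 𝒱.Obj) (j : ℕ) (φ : W.H Y →ₗ[W.K] W.H Y) : Prop :=
  ∃ e ∈ KOp W Y Y 0, (∀ y ∈ W.gr Y j, e y = φ y) ∧
    ∀ i, i % 2 ≠ j % 2 → ∀ y ∈ W.gr Y i, e y = 0

lemma Lifts.zero (j : ℕ) : Lifts W Y j 0 :=
  ⟨0, Submodule.zero_mem _, fun _ _ => rfl, fun _ _ _ _ => rfl⟩

lemma Lifts.add {j : ℕ} {φ ψ : W.H Y →ₗ[W.K] W.H Y} (h : Lifts W Y j φ) (h' : Lifts W Y j ψ) :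
    Lifts W Y j (φ + ψ) := by
  obtain ⟨e, he, h1, h2⟩ := h
  obtain ⟨e', he', h1', h2'⟩ := h'
  refine ⟨e + e', Submodule.add_mem _ he he', fun y hy => ?_, fun i hi y hy => ?_⟩
  · rw [LinearMap.add_apply, LinearMap.add_apply, h1 y hy, h1' y hy]
  · rw [LinearMap.add_apply, h2 i hi y hy, h2' i hi y hy, add_zero]

lemma Lifts.smul {j : ℕ} {φ : W.H Y →ₗ[W.K] W.H Y} (a : W.K) (h : Lifts W Y j φ) :
    Lifts W Y j (a • φ) := by
  obtain ⟨e, he, h1, h2⟩ := h
  refine ⟨a • e, Submodule.smul_mem _ _ he, fun y hy => ?_, fun i hi y hy => ?_⟩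
  · rw [LinearMap.smul_apply, LinearMap.smul_apply, h1 y hy]
  · rw [LinearMap.smul_apply, h2 i hi y hy, smul_zero]

/-- The image of a homogeneous element is zero or homogeneous of the same parity. -/
lemma kop_par {d : ℤ} {φ : W.H X →ₗ[W.K] W.H Y} (hφ : φ ∈ KOp W X Y d) {i : ℕ} {a : W.H X}
    (ha : a ∈ W.gr X i) : φ a = 0 ∨ ∃ j : ℕ, (j : ℤ) = i + 2 * d ∧ φ a ∈ W.gr Y j := by
  by_cases h : (i : ℤ) + 2 * d < 0
  · exact Or.inl (kop_neg hφ ha h)
  · exact Or.inr ⟨(i + 2 * d).toNat, by omega, kop_mem hφ ha (by omega)⟩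

/-- Composites through a variety with the sign conjecture. -/
lemma lifts_through (hX : SignStd W X) {d : ℤ} {g : W.H X →ₗ[W.K] W.H Y} (hg : g ∈ KOp W X Y d)
    {h : W.H Y →ₗ[W.K] W.H X} (hh : h ∈ KOp W Y X (-d)) (j : ℕ) : Lifts W Y j (g ∘ₗ h) := by
  obtain ⟨π, hπ, h1, h2⟩ := exists_par hX j
  refine ⟨g ∘ₗ π ∘ₗ h, KOp.cast (KOp.comp hg (KOp.comp hπ hh)) (by ring), fun y hy => ?_,
    fun i hi y hy => ?_⟩
  · rw [LinearMap.comp_apply, LinearMap.comp_apply, LinearMap.comp_apply]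
    rcases kop_par hh hy with h0 | ⟨l, hl, hy'⟩
    · rw [h0, map_zero]
    · rw [h1 l (by omega) _ hy']
  · rw [LinearMap.comp_apply, LinearMap.comp_apply]
    rcases kop_par hh hy with h0 | ⟨l, hl, hy'⟩
    · rw [h0, map_zero, map_zero]
    · rw [h2 l (by omega) _ hy', map_zero]

/-- Composites supported in codimension `c`. -/
lemma lifts_supported {E : 𝒱.Obj} (f : E ⟶ Y) {c : ℕ} (hE : E.dim + c = Y.dim)
    {τ : W.H Y →ₗ[W.K] W.H E} (hτ : τ ∈ KOp W Y E (-c)) {j : ℕ}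
    (hs : 2 * c ≤ j → Separated W E (j - 2 * c)) : Lifts W Y j (W.push f ∘ₗ τ) := by
  by_cases hj : 2 * c ≤ j
  · obtain ⟨σ, hσ, h1, h2⟩ := hs hj
    refine ⟨W.push f ∘ₗ σ ∘ₗ τ, ?_, fun y hy => ?_, fun i hi y hy => ?_⟩
    · refine KOp.cast (KOp.comp (qop_push f).kop (KOp.comp hσ hτ)) ?_
      push_cast [← hE]
      ring
    · rw [LinearMap.comp_apply, LinearMap.comp_apply, LinearMap.comp_apply,
        h1 _ (kop_mem hτ hy (by push_cast [Nat.cast_sub hj]; ring))]
    · rw [LinearMap.comp_apply, LinearMap.comp_apply]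
      rcases kop_par hτ hy with h0 | ⟨l, hl, hy'⟩
      · rw [h0, map_zero, map_zero]
      · rw [h2 l (by omega) _ hy', map_zero]
  · refine ⟨0, Submodule.zero_mem _, fun y hy => ?_, fun i hi y hy => rfl⟩
    rw [LinearMap.comp_apply, kop_neg hτ hy (by omega), map_zero, LinearMap.zero_apply]

/-- **From operators modulo small support to the separation.** -/
theorem lifts_of_mem {C : Set 𝒱.Obj} {c : ℕ} (hC : ∀ X ∈ C, SignStd W X) {j : ℕ}
    (hE : 2 * c ≤ j → ∀ E : 𝒱.Obj, E.dim + c = Y.dim → Separated W E (j - 2 * c))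
    {φ : W.H Y →ₗ[W.K] W.H Y} (hφ : φ ∈ throughOp W Y C ⊔ supportedOp W Y c) : Lifts W Y j φ := by
  obtain ⟨a, ha, b, hb, rfl⟩ := Submodule.mem_sup.1 hφ
  clear hφ
  refine Lifts.add ?_ ?_
  · clear hb
    induction ha using Submodule.span_induction with
    | mem x hx =>
      obtain ⟨X, hX, d, g, hg, h, hh, rfl⟩ := hx
      exact lifts_through (hC X hX) hg hh j
    | zero => exact Lifts.zero j
    | add x y _ _ hx hy => exact hx.add hy
    | smul a x _ hx => exact hx.smul a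
  · clear ha
    induction hb using Submodule.span_induction with
    | mem x hx =>
      obtain ⟨E, f, hEd, τ, hτ, rfl⟩ := hx
      exact lifts_supported f hEd hτ (fun hj => hE hj E hEd)
    | zero => exact Lifts.zero j
    | add x y _ _ hx hy => exact hx.add hy
    | smul a x _ hx => exact hx.smul a

/-- The group `H^0` is separated for varieties with a divisor with hard Lefschetz. -/
theorem separated_zero {D : X.Cycles} (hD : IsLefschetzDivisor W X D) : Separated W X 0 := by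
  rcases Pool.Agent.W534.exists_top hD.1 hD.2 with ⟨η, hη, h0⟩ | h0
  · have hη' : W.cl X η ∈ W.gr X (2 * X.dim) := W.cl_mem hη
    have hc : (X.prod X).IsCyc X.dim (ops.pull (fst X X) η) := ops.pull_mem _ hη
    have hne : (X.V.degCycle η : W.K) ≠ 0 := by exact_mod_cast h0
    have hop : ∀ a, W.corr (W.cl (X.prod X) (ops.pull (fst X X) η)) a =
        W.tr X (W.cl X η * a) • (1 : W.H X) := by
      intro a
      rw [corr_apply, W.cl_pull, ← map_mul, W.push_snd']
    refine ⟨(X.V.degCycle η : W.K)⁻¹ • W.corr (W.cl (X.prod X) (ops.pull (fst X X) η)),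
      Submodule.smul_mem _ _ (KOp.gen (p := X.dim) (by ring) hc), fun y hy => ?_,
      fun j hj y hy => ?_⟩
    · rw [W.gr_zero] at hy
      obtain ⟨q, rfl⟩ := Submodule.mem_span_singleton.1 hy
      rw [LinearMap.smul_apply, hop, mul_smul_comm, mul_one, map_smul, W.tr_cl hη, smul_smul,
        smul_eq_mul]
      congr 1
      field_simp
    · rw [LinearMap.smul_apply, hop, W.tr_eq_zero (W.mul_mem hη' hy) (by omega), zero_smul,
        smul_zero]
  · have hz : ∀ y : W.H X, y = 0 := fun y => by rw [← one_mul y, h0, zero_mul]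
    refine ⟨0, Submodule.zero_mem _, fun y _ => ?_, fun j _ y _ => rfl⟩
    rw [hz y, map_zero]

/-- The groups with algebraic Kunneth projectors are separated. -/
theorem separated_of_kunneth {i : ℕ} (h : KunnethAt W X i) : Separated W X i := by
  obtain ⟨P, hP, h1⟩ := h
  refine ⟨_, KOp.gen (p := X.dim) (by ring) hP, fun y hy => ?_, fun j hj y hy => ?_⟩
  · rw [h1 i y hy, if_pos rfl]
  · rw [h1 j y hy, if_neg (by rintro rfl; exact hj rfl)]

/-- **The sign conjecture from the lower groups of one parity, modulo small support.** -/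
theorem sign_of_lower {C : Set 𝒱.Obj} {c : ℕ} (hC : ∀ X ∈ C, SignStd W X)
    (hE : ∀ E : 𝒱.Obj, E.dim + c = Y.dim → ∀ i, i + 2 * c < Y.dim → i % 2 ≠ Y.dim % 2 →
      Separated W E i)
    (hY : ∀ j < Y.dim, j % 2 ≠ Y.dim % 2 → ∃ φ ∈ throughOp W Y C ⊔ supportedOp W Y c,
      ∀ y ∈ W.gr Y j, φ y = y) : SignStd W Y := by
  refine sign_of_separated fun j hj hjn => ?_
  obtain ⟨φ, hφ, hφ1⟩ := hY j hj hjn
  obtain ⟨e, he, h1, h2⟩ := lifts_of_mem hC
    (j := j) (fun h2 E hEd => hE E hEd (j - 2 * c) (by omega) (by omega)) hφ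
  exact ⟨e, he, fun y hy => by rw [h1 y hy, hφ1 y hy], h2⟩

/-- **The sign conjecture and birational motives.** -/
theorem sign_of_comesFrom {C : Set 𝒱.Obj} {c : ℕ} (hC : ∀ X ∈ C, SignStd W X)
    (hHL : ∀ E : 𝒱.Obj, E.dim + c = Y.dim → ∃ D, IsLefschetzDivisor W E D)
    (hE : ∀ E : 𝒱.Obj, E.dim + c = Y.dim → ∀ i, 1 ≤ i → i + 2 * c < Y.dim → i % 2 ≠ Y.dim % 2 →
      Separated W E i)
    (hY : ComesFrom W Y C c) : SignStd W Y := by
  refine sign_of_lower (c := c) hC (fun E hEd i hi hi2 => ?_)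
    (fun j _ _ => ⟨_, hY, fun y _ => rfl⟩)
  rcases Nat.eq_zero_or_pos i with rfl | hi0
  · obtain ⟨D, hD⟩ := hHL E hEd
    exact separated_zero hD
  · exact hE E hEd i hi0 hi hi2

/-- In dimension at most `2 c + 1` nothing has to be known about the supports. -/
theorem sign_of_comesFrom_low {C : Set 𝒱.Obj} {c : ℕ} (hC : ∀ X ∈ C, SignStd W X)
    (hHL : ∀ E : 𝒱.Obj, E.dim + c = Y.dim → ∃ D, IsLefschetzDivisor W E D)
    (hdim : Y.dim ≤ 2 * c + 1) (hY : ComesFrom W Y C c) : SignStd W Y :=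
  sign_of_comesFrom hC hHL (fun _ _ i h1 h2 _ => absurd h2 (by omega)) hY

/-- In dimension `2 c + 2` only the first cohomology group of the supports matters. -/
theorem sign_of_comesFrom_one {C : Set 𝒱.Obj} {c : ℕ} (hC : ∀ X ∈ C, SignStd W X)
    (hHL : ∀ E : 𝒱.Obj, E.dim + c = Y.dim → ∃ D, IsLefschetzDivisor W E D)
    (h1 : ∀ E : 𝒱.Obj, E.dim + c = Y.dim → KunnethAt W E 1)
    (hdim : Y.dim ≤ 2 * c + 2) (hY : ComesFrom W Y C c) : SignStd W Y := by
  refine sign_of_comesFrom hC hHL (fun E hE i hi hi2 _ => ?_) hY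
  obtain rfl : i = 1 := by omega
  exact separated_of_kunneth (h1 E hE)

end Pool.Agent.Y100.Sg
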