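import Pool.Agent.TH133.PW.Orb
import Pool.Agent.Y100.Sg.Mat
import Pool.Agent.Y100.Sg.Thr
import Pool.Agent.Y100.Sg.GenDefs
import Pool.Agent.Y100.Sg.Par

/-!
# The sign conjecture when the lower cohomology of one parity is generated by other varieties
-/

open CategoryTheory AlgebraicGeometry Finset

universe u v

namespace Pool.Agent.Y100.Sg

open Pool.Agent.H914 Pool.Agent.TH133.PW Pool.Agent.W534 Pool.Agent.H447 Pool.Agent.W550.B
  VarClass Obj
  WeilCohomology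

variable {k : Type u} [Field k] {𝒱 : VarClass k} {ops : CycleOps 𝒱}
  {W : WeilCohomology.{u, v} ops} {X Y Z : 𝒱.Obj}

/-- The operators whose component of degree zero factors through `𝒯`. -/
def HasZeroPart (W : WeilCohomology.{u, v} ops) (Y : 𝒱.Obj) (𝒯 : Set 𝒱.Obj)
    (φ : W.H Y →ₗ[W.K] W.H Y) : Prop :=
  ∃ φ₀ ∈ throughOp W Y 𝒯, ∀ j, ∀ y ∈ W.gr Y j, proj (W.isInternal Y) j (φ y) = φ₀ y

lemma HasZeroPart.add {𝒯 : Set 𝒱.Obj} {φ ψ : W.H Y →ₗ[W.K] W.H Y} (h : HasZeroPart W Y 𝒯 φ)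
    (h' : HasZeroPart W Y 𝒯 ψ) : HasZeroPart W Y 𝒯 (φ + ψ) := by
  obtain ⟨a, ha, h1⟩ := h
  obtain ⟨b, hb, h2⟩ := h'
  refine ⟨a + b, Submodule.add_mem _ ha hb, fun j y hy => ?_⟩
  rw [LinearMap.add_apply, LinearMap.add_apply, map_add, h1 j y hy, h2 j y hy]

lemma HasZeroPart.zero {𝒯 : Set 𝒱.Obj} : HasZeroPart W Y 𝒯 0 :=
  ⟨0, Submodule.zero_mem _, fun j y _ => by
    rw [LinearMap.zero_apply, map_zero]⟩

lemma HasZeroPart.sum {𝒯 : Set 𝒱.Obj} {ι : Type*} {s : Finset ι}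
    {F : ι → (W.H Y →ₗ[W.K] W.H Y)} (h : ∀ i ∈ s, HasZeroPart W Y 𝒯 (F i)) :
    HasZeroPart W Y 𝒯 (∑ i ∈ s, F i) := by
  classical
  induction s using Finset.induction_on with
  | empty => rw [Finset.sum_empty]; exact HasZeroPart.zero
  | insert a s ha ih =>
    rw [Finset.sum_insert ha]
    exact (h a (by simp)).add (ih (fun i hi => h i (by simp [hi])))

/-- Composites of two homogeneous operators. -/
lemma hasZeroPart_comp {𝒯 : Set 𝒱.Obj} {T : 𝒱.Obj} (hT : T ∈ 𝒯) {d e : ℤ}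
    {g : W.H T →ₗ[W.K] W.H Y} (hg : g ∈ KOp W T Y d) {h : W.H Y →ₗ[W.K] W.H T}
    (hh : h ∈ KOp W Y T e) : HasZeroPart W Y 𝒯 (g ∘ₗ h) := by
  by_cases hde : e = -d
  · subst hde
    refine ⟨g ∘ₗ h, Submodule.subset_span ⟨T, hT, d, g, hg, h, hh, rfl⟩, fun j y hy => ?_⟩
    have h1 : g ∘ₗ h ∈ KOp W Y Y 0 := KOp.cast (KOp.comp hg hh) (by ring)
    exact proj_same _ (kop_gr h1 j hy)
  · refine ⟨0, Submodule.zero_mem _, fun j y hy => ?_⟩
    rw [LinearMap.zero_apply]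
    rcases kop_par (KOp.comp hg hh) hy with h0 | ⟨l, hl, hy'⟩
    · rw [h0, map_zero]
    · exact proj_ne _ hy' (by omega)

/-- **The identity of a group generated by varieties with `D` and the sign conjecture factors
through these varieties.** -/
theorem exists_through {𝒯 : Set 𝒱.Obj} (hD : ∀ S ∈ 𝒯, ∀ T ∈ 𝒯, HomEqNum W (S.prod T))
    (hC : ∀ T ∈ 𝒯, SignStd W T) {D : Y.Cycles} (hHL : IsLefschetzDivisor W Y D) {j : ℕ}
    (hj : j ≤ Y.dim) (hgen : GeneratedBy W 𝒯 Y j) :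
    ∃ φ ∈ throughOp W Y 𝒯, ∀ y ∈ W.gr Y j, φ y = y := by
  classical
  -- a finite family of generators
  let ι := {t : Σ T : 𝒱.Obj, (W.H T →ₗ[W.K] W.H Y) // t.1 ∈ 𝒯 ∧ ∃ d : ℤ, t.2 ∈ KOp W t.1 Y d}
  have hle : W.gr Y j ≤ ⨆ t : ι, LinearMap.range t.1.2 := by
    refine hgen.trans ?_
    rw [Submodule.span_le]
    rintro _ ⟨T, hT, d, φ, hφ, x, rfl⟩
    exact Submodule.mem_iSup_of_mem (⟨⟨T, φ⟩, hT, d, hφ⟩ : ι) (LinearMap.mem_range_self φ x)
  have hfg : (W.gr Y j).FG := IsNoetherian.noetherian _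
  obtain ⟨s, hs⟩ := CompleteLattice.IsCompactElement.exists_finset_of_le_iSup _
    ((Submodule.fg_iff_compact _).1 hfg) _ hle
  let T : s → 𝒱.Obj := fun t => t.1.1.1
  let φ : ∀ t : s, W.H (T t) →ₗ[W.K] W.H Y := fun t => t.1.1.2
  have hT : ∀ t, T t ∈ 𝒯 := fun t => t.1.2.1
  choose d hφ using fun t : s => t.1.2.2
  have hφ' : ∀ t, φ t ∈ KOp W (T t) Y (d t) := hφ
  choose ψ hψ hadj using fun t : s => KOp.exists_adjoint (hφ' t)
  set ℓ : W.H Y := W.cl Y D ^ (Y.dim - j) with hℓ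
  have hℓop : LinearMap.mulLeft W.K ℓ ∈ KOp W Y Y ((Y.dim - j : ℕ) : ℤ) := pow_cl_mem hHL.1 _
  have hℓgr : ℓ ∈ W.gr Y (2 * (Y.dim - j)) := by
    have h1 := kop_mem hℓop (W.one_mem Y) (j := 2 * (Y.dim - j)) (by push_cast; ring)
    rwa [LinearMap.mulLeft_apply, mul_one] at h1
  -- the two maps
  let G : (∀ t, W.H (T t)) →ₗ[W.K] W.H Y := ∑ t, φ t ∘ₗ LinearMap.proj t
  let G' : W.H Y →ₗ[W.K] (∀ t, W.H (T t)) :=
    LinearMap.pi fun t => ψ t ∘ₗ LinearMap.mulLeft W.K ℓ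
  have hG : ∀ y ∈ W.gr Y j, ∃ x, G x = y := by
    intro y hy
    have h1 := hs hy
    rw [Submodule.mem_iSup_finset_iff_exists_sum] at h1
    obtain ⟨μ, hμ⟩ := h1
    choose x hx using fun t : ι => (μ t).2
    refine ⟨fun t => x t.1, ?_⟩
    rw [← hμ, ← Finset.sum_coe_sort s (fun t => (μ t : W.H Y))]
    simp only [G, LinearMap.sum_apply, LinearMap.comp_apply, LinearMap.proj_apply]
    exact Finset.sum_congr rfl fun t _ => hx t.1
  have ha : (G' ∘ₗ G : Module.End W.K (∀ t, W.H (T t))) ∈ matAlg W T := by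
    intro a b
    have h1 : entry T (G' ∘ₗ G) a b = ψ a ∘ₗ LinearMap.mulLeft W.K ℓ ∘ₗ φ b := by
      apply LinearMap.ext
      intro x
      simp only [entry, G, G', LinearMap.comp_apply, LinearMap.proj_apply, LinearMap.pi_apply,
        LinearMap.sum_apply, LinearMap.single_apply]
      rw [Finset.sum_eq_single b]
      · rw [Pi.single_eq_same]
      · intro c _ hc
        rw [Pi.single_eq_of_ne hc, map_zero]
      · intro h; exact absurd (Finset.mem_univ b) h
    rw [h1]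
    exact allOp_comp (kop_le (hψ a)) (allOp_comp (kop_le hℓop) (kop_le (hφ' b)))
  obtain ⟨b, hb, hab⟩ := matAlg_regular (fun i j => hD _ (hT i) _ (hT j)) (fun i => hC _ (hT i)) ha
  -- the operator on the cohomology of `Y`
  set Q : W.H Y →ₗ[W.K] W.H Y := G ∘ₗ b ∘ₗ G' with hQ
  have hQz : HasZeroPart W Y 𝒯 Q := by
    have h1 : Q = ∑ p : s × s, φ p.1 ∘ₗ (entry T b p.1 p.2 ∘ₗ (ψ p.2 ∘ₗ
        LinearMap.mulLeft W.K ℓ)) := by
      apply LinearMap.ext
      intro y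
      rw [LinearMap.sum_apply, Fintype.sum_prod_type]
      simp only [hQ, G, LinearMap.comp_apply, LinearMap.sum_apply, LinearMap.proj_apply, entry,
        LinearMap.single_apply]
      apply Finset.sum_congr rfl
      intro c _
      have h2 : b (G' y) = ∑ x, b (Pi.single x (G' y x)) := by
        rw [← map_sum, LinearMap.sum_single_apply]
      rw [h2, Finset.sum_apply, map_sum]
      rfl
    rw [h1]
    refine HasZeroPart.sum fun p _ => ?_
    have hβ : entry T b p.1 p.2 ∈ allOp W (T p.2) (T p.1) := hb p.1 p.2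
    refine Submodule.iSup_induction _ (motive := fun β => HasZeroPart W Y 𝒯
      (φ p.1 ∘ₗ (β ∘ₗ (ψ p.2 ∘ₗ LinearMap.mulLeft W.K ℓ)))) hβ ?_ ?_ ?_
    · intro e β hβ
      exact hasZeroPart_comp (hT p.1) (hφ' p.1) (KOp.comp hβ (KOp.comp (hψ p.2) hℓop))
    · rw [LinearMap.zero_comp, LinearMap.comp_zero]; exact HasZeroPart.zero
    · intro β β' h h'
      rw [LinearMap.add_comp, LinearMap.comp_add]; exact h.add h'
  obtain ⟨Q₀, hQ₀, hQ₀'⟩ := hQz
  refine ⟨Q₀, hQ₀, fun y hy => ?_⟩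
  -- the difference
  set u : W.H Y := Q y - y with hu
  have hG'u : G' u = 0 := by
    obtain ⟨x, rfl⟩ := hG y hy
    have h1 := congrArg (fun f => f x) hab
    simp only [Module.End.mul_apply, LinearMap.comp_apply] at h1
    rw [hu, map_sub, hQ, LinearMap.comp_apply, LinearMap.comp_apply, h1, sub_self]
  have hpu : proj (W.isInternal Y) j u = Q₀ y - y := by
    rw [hu, map_sub, hQ₀' j y hy, proj_same _ hy]
  rw [← sub_eq_zero, ← hpu]
  have hzmem : proj (W.isInternal Y) j u ∈ W.gr Y j := proj_mem _ _ _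
  have hpow : ∀ a : W.H Y, (LinearMap.mulLeft W.K (W.cl Y D) ^ (Y.dim - j)) a = ℓ * a := by
    intro a
    rw [LinearMap.pow_mulLeft, LinearMap.mulLeft_apply]
  apply (hHL.2 j hj).1 _ hzmem
  rw [hpow]
  apply nondeg_right
  intro c
  refine gr_induction (W.isInternal Y)
    (p := fun c => W.tr Y (c * (ℓ * proj (W.isInternal Y) j u)) = 0) ?_ ?_ c
  swap
  · intro c c' h h'
    rw [add_mul, map_add, h, h', add_zero]
  intro i c hc
  by_cases hij : i = j
  swap
  · exact W.tr_eq_zero (W.mul_mem hc (W.mul_mem hℓgr hzmem)) (by omega)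
  subst hij
  -- only the component of degree `j` of `u` matters
  have h1 : ∀ w : W.H Y, W.tr Y (c * (ℓ * proj (W.isInternal Y) i w)) = W.tr Y (c * (ℓ * w)) := by
    intro w
    refine gr_induction (W.isInternal Y) (p := fun w =>
      W.tr Y (c * (ℓ * proj (W.isInternal Y) i w)) = W.tr Y (c * (ℓ * w))) ?_ ?_ w
    · intro l w hw
      by_cases hl : l = i
      · subst hl; rw [proj_same _ hw]
      · rw [proj_ne _ hw hl, mul_zero, mul_zero, map_zero,
          W.tr_eq_zero (W.mul_mem hc (W.mul_mem hℓgr hw)) (by omega)]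
    · intro w w' h h'
      rw [map_add, mul_add, mul_add, mul_add, mul_add, map_add, map_add, h, h']
  rw [h1]
  obtain ⟨x, rfl⟩ := hG c hc
  simp only [G, LinearMap.sum_apply, LinearMap.comp_apply, LinearMap.proj_apply, Finset.sum_mul,
    map_sum]
  apply Finset.sum_eq_zero
  intro t _
  rw [hadj]
  have h2 : ψ t (ℓ * u) = 0 := by
    have := congrFun hG'u t
    simpa [G'] using this
  rw [h2, mul_zero, map_zero]

/-- A group generated by varieties with `D` and the sign conjecture is separated from the cohomology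
of the other parity. -/
theorem separated_of_generated {𝒯 : Set 𝒱.Obj} (hD : ∀ S ∈ 𝒯, ∀ T ∈ 𝒯, HomEqNum W (S.prod T))
    (hC : ∀ T ∈ 𝒯, SignStd W T) {D : Y.Cycles} (hHL : IsLefschetzDivisor W Y D) {j : ℕ}
    (hj : j ≤ Y.dim) (hgen : GeneratedBy W 𝒯 Y j) : Separated W Y j := by
  obtain ⟨φ, hφ, h1⟩ := exists_through hD hC hHL hj hgen
  have h2 : Lifts W Y j φ := by
    clear h1
    induction hφ using Submodule.span_induction with
    | mem x hx =>
      obtain ⟨X, hX, d, g, hg, h, hh, rfl⟩ := hx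
      exact lifts_through (hC X hX) hg hh j
    | zero => exact Lifts.zero j
    | add x y _ _ hx hy => exact hx.add hy
    | smul a x _ hx => exact hx.smul a
  obtain ⟨e, he, he1, he2⟩ := h2
  exact ⟨e, he, fun y hy => by rw [he1 y hy, h1 y hy], he2⟩

/-- **The sign conjecture when the lower cohomology of one parity is generated by varieties with `D`
and the sign conjecture.** -/
theorem sign_of_generated {𝒯 : Set 𝒱.Obj} (hD : ∀ S ∈ 𝒯, ∀ T ∈ 𝒯, HomEqNum W (S.prod T))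
    (hC : ∀ T ∈ 𝒯, SignStd W T) {D : Y.Cycles} (hHL : IsLefschetzDivisor W Y D) (ε : ℕ)
    (hgen : ∀ j ≤ Y.dim, j % 2 = ε % 2 → GeneratedBy W 𝒯 Y j) : SignStd W Y :=
  sign_of_separated_par ε fun j hj hjε => separated_of_generated hD hC hHL hj (hgen j hj hjε)

end Pool.Agent.Y100.Sg
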