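import Pool.Agent.H447R3.SpC
import Pool.Agent.Y100.Sg.Gen

/-!
# The sign conjecture for varieties half generated by varieties with `D`
-/

open CategoryTheory AlgebraicGeometry Finset

universe u v

namespace Pool.Agent.Y100.Sg

open Pool.Agent.H914 Pool.Agent.TH133.PW Pool.Agent.W534 Pool.Agent.H447 Pool.Agent.W550.B
  VarClass Obj WeilCohomology

variable {k : Type u} [Field k] {𝒱 : VarClass k} {ops : CycleOps 𝒱}
  {W : WeilCohomology.{u, v} ops} {X Y Z : 𝒱.Obj}

/-- `D` for the square and hard Lefschetz give the sign conjecture. -/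
lemma sign_of_homEqNum {D : X.Cycles} (hD : IsLefschetzDivisor W X D)
    (h : HomEqNum W (X.prod X)) : SignStd W X := by
  have h13 : HomEqNum W (X.prod X) ↔ HomEqNumIn W (X.prod X) X.dim ∧ LefschetzB W X D :=
    (d_tfae hD.1 hD.2).out 0 2
  have hB : LefschetzB W X D := (h13.1 h).2
  obtain ⟨Φ, hΦ, hLam⟩ := lefschetzB_iff_rop.1 hB
  exact sign_of_kunneth (fun i => rop_opAlg.proj_mem (W.isInternal X) W_hbd (rop_mulLeft hD.1)
    hD.2 hΦ hLam i)

/-- **The sign conjecture when the lower cohomology of one parity is generated by varieties whose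
products satisfy `D`.** -/
theorem sign_of_half_generated {𝒯 : Set 𝒱.Obj} (hD : ∀ S ∈ 𝒯, ∀ T ∈ 𝒯, HomEqNum W (S.prod T))
    (hL : ∀ T ∈ 𝒯, ∃ D, IsLefschetzDivisor W T D) {D : Y.Cycles} (hHL : IsLefschetzDivisor W Y D)
    (ε : ℕ) (hgen : ∀ j ≤ Y.dim, j % 2 = ε % 2 → GeneratedBy W 𝒯 Y j) : SignStd W Y := by
  refine sign_of_generated hD (fun T hT => ?_) hHL ε hgen
  obtain ⟨E, hE⟩ := hL T hT
  exact sign_of_homEqNum hE (hD T hT T hT)

end Pool.Agent.Y100.Sg
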