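import Pool.Agent.Y100.Sg.StDefs
import Pool.Agent.Y100.Sg.Thr

/-!
# The sign conjecture modulo correspondences of small support
-/

open CategoryTheory AlgebraicGeometry Finset

universe u v

namespace Pool.Agent.Y100.Sg

open Pool.Agent.H914 Pool.Agent.TH133.PW Pool.Agent.W534 Pool.Agent.H447 Pool.Agent.W550.B
  VarClass Obj WeilCohomology

variable {k : Type u} [Field k] {𝒱 : VarClass k} {ops : CycleOps 𝒱}
  {W : WeilCohomology.{u, v} ops} {X Y Z T : 𝒱.Obj}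

lemma separated_of {i : ℕ} (h : IsSeparated W T i) : Separated W T i := by
  obtain ⟨γ, h0, h1, h2⟩ := h
  exact ⟨W.corr γ, mem_KOp_iff.2 ⟨γ, by rwa [add_zero], rfl⟩, h1, h2⟩

/-- A list of operators in the sum of the two spaces. -/
lemma list_mem {C : Set 𝒱.Obj} {c : ℕ} (l : List (W.H Y → W.H Y))
    (h : ∀ φ ∈ l, FactorsThrough W Y C φ ∨ IsSupported W Y c φ) :
    ∃ ψ ∈ throughOp W Y C ⊔ supportedOp W Y c, ∀ y, ψ y = (l.map fun φ => φ y).sum := by
  induction l with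
  | nil => exact ⟨0, Submodule.zero_mem _, fun y => by simp⟩
  | cons φ l ih =>
    obtain ⟨ψ, hψ, h1⟩ := ih fun φ' hφ' => h φ' (List.mem_cons_of_mem _ hφ')
    have h2 : ∃ ψ' ∈ throughOp W Y C ⊔ supportedOp W Y c, ∀ y, ψ' y = φ y := by
      rcases h φ List.mem_cons_self with ⟨X, hX, g, h, ⟨a, b, hab, hg, hh⟩, hφ⟩ |
        ⟨E, f, hE, τ, hτ, hφ⟩
      · refine ⟨W.corr g ∘ₗ W.corr h, Submodule.mem_sup_left (Submodule.subset_span
          ⟨X, hX, (a : ℤ) - X.dim, W.corr g, mem_KOp_iff.2 ⟨g, ?_, rfl⟩, W.corr h,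
            mem_KOp_iff.2 ⟨h, ?_, rfl⟩, rfl⟩), fun y => (hφ y).symm⟩
        · rwa [show (X.dim : ℤ) + ((a : ℤ) - X.dim) = a by ring]
        · rwa [show (Y.dim : ℤ) + -((a : ℤ) - X.dim) = b by omega]
      · refine ⟨W.push f ∘ₗ W.corr τ, Submodule.mem_sup_right (Submodule.subset_span
          ⟨E, f, hE, W.corr τ, mem_KOp_iff.2 ⟨τ, ?_, rfl⟩, rfl⟩), fun y => (hφ y).symm⟩
        rwa [show (Y.dim : ℤ) + -(c : ℤ) = E.dim by omega]
    obtain ⟨ψ', hψ', h3⟩ := h2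
    refine ⟨ψ' + ψ, Submodule.add_mem _ hψ' hψ, fun y => ?_⟩
    rw [LinearMap.add_apply, h3, h1, List.map_cons, List.sum_cons]

/-- **The sign conjecture modulo correspondences of small support.** -/
theorem sign_of_comesFromClass {C : Set 𝒱.Obj} {c : ℕ} (hC : ∀ X ∈ C, SignStd W X)
    (hHL : ∀ E : 𝒱.Obj, E.dim + c = Y.dim → ∃ D, IsLefschetzDivisor W E D)
    (hE : ∀ E : 𝒱.Obj, E.dim + c = Y.dim → ∀ i, 1 ≤ i → i + 2 * c < Y.dim → i % 2 ≠ Y.dim % 2 →
      IsSeparated W E i)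
    (hY : ComesFromClass W Y C c) : SignStd W Y := by
  obtain ⟨l, hl, h1⟩ := hY
  obtain ⟨ψ, hψ, h2⟩ := list_mem l hl
  refine sign_of_comesFrom (c := c) hC hHL
    (fun E h3 i h4 h5 h6 => separated_of (hE E h3 i h4 h5 h6)) ?_
  have : ψ = LinearMap.id := by
    apply LinearMap.ext
    intro y
    rw [h2, h1, LinearMap.id_apply]
  rw [ComesFrom, ← this]
  exact hψ

end Pool.Agent.Y100.Sg
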