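import Pool.Agent.Y100.Sg.StDefs2
import Pool.Agent.Y100.Sg.GenTop

/-!
# The sign conjecture for varieties half generated by varieties with `D`
-/

open CategoryTheory AlgebraicGeometry Finset

universe u v

namespace Pool.Agent.Y100.Sg

open Pool.Agent.H914 Pool.Agent.TH133.PW Pool.Agent.W534 Pool.Agent.H447 Pool.Agent.W550.B
  VarClass Obj WeilCohomology

variable {k : Type u} [Field k] {𝒱 : VarClass k} {ops : CycleOps 𝒱}
  {W : WeilCohomology.{u, v} ops} {X Y Z T : 𝒱.Obj}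

lemma generatedBy_of {S : Set 𝒱.Obj} {j : ℕ} (h : IsGeneratedBy W S Y j) :
    GeneratedBy W S Y j := by
  refine le_trans h (Submodule.span_mono ?_)
  rintro _ ⟨T, hT, q, γ, x, hγ, rfl⟩
  exact ⟨T, hT, q - T.dim, W.corr γ, mem_KOp_iff.2 ⟨γ, by
    rwa [show (T.dim : ℤ) + (q - T.dim) = q by ring], rfl⟩, x, rfl⟩

/-- **The sign conjecture when the lower cohomology of one parity is generated by varieties whose
products satisfy `D`.** -/
theorem sign_of_isGeneratedBy {S : Set 𝒱.Obj} (hD : ∀ T ∈ S, ∀ T' ∈ S, HomEqNum W (T.prod T'))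
    (hL : ∀ T ∈ S, ∃ D, IsLefschetzDivisor W T D) {D : Y.Cycles} (hHL : IsLefschetzDivisor W Y D)
    (ε : ℕ) (hgen : ∀ j ≤ Y.dim, j % 2 = ε % 2 → IsGeneratedBy W S Y j) : SignStd W Y :=
  sign_of_half_generated hD hL hHL ε fun j h1 h2 => generatedBy_of (hgen j h1 h2)

end Pool.Agent.Y100.Sg
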