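import Pool.Agent.H914R2.DDefs

/-!
# Statements about the sign conjecture: definitions
-/

open CategoryTheory AlgebraicGeometry

universe u v

namespace Pool.Agent.Y100.Sg

section Alg

variable {K : Type*} [Field K] {V : Type*} [AddCommGroup V] [Module K V]

/-- The map `P` is the identity on `gr i` and zero on the `gr j` with `j` of the other parity than
`i`. -/
def IsSeparator (gr : ℕ → Submodule K V) (i : ℕ) (P : V → V) : Prop :=
  (∀ y ∈ gr i, P y = y) ∧ ∀ j, j % 2 ≠ i % 2 → ∀ y ∈ gr j, P y = 0

end Alg

open Pool.Agent.H914 VarClass Obj WeilCohomology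

variable {k : Type u} [Field k] {𝒱 : VarClass k} {ops : CycleOps 𝒱}

/-- The group `H^i(T)` is separated from the cohomology of `T` of the other parity: some `K`-linear
combination of algebraic correspondences of degree zero is the identity on `H^i(T)`, and zero on the
`H^j(T)` with `j` of the other parity than `i`. -/
def IsSeparated (W : WeilCohomology.{u, v} ops) (T : 𝒱.Obj) (i : ℕ) : Prop :=
  ∃ γ ∈ spanCycles W (T.prod T) T.dim, IsSeparator (W.gr T) i fun y => W.corr γ y

/-- The classes `g` on `X × Y` and `h` on `Y × X` are `K`-linear combinations of classes of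
algebraic cycles, and the correspondences given by them have opposite degrees. -/
def AreOppositeClasses (W : WeilCohomology.{u, v} ops) {X Y : 𝒱.Obj} (g : W.H (X.prod Y))
    (h : W.H (Y.prod X)) : Prop :=
  ∃ a b : ℕ, a + b = X.dim + Y.dim ∧ g ∈ spanCycles W (X.prod Y) a ∧
    h ∈ spanCycles W (Y.prod X) b

/-- The operator `φ` is a composite `H(Y) → H(X) → H(Y)` of combinations of algebraic
correspondences of opposite degrees, with `X` in `C`. -/
def FactorsThrough (W : WeilCohomology.{u, v} ops) (Y : 𝒱.Obj) (C : Set 𝒱.Obj)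
    (φ : W.H Y → W.H Y) : Prop :=
  ∃ X ∈ C, ∃ g h, AreOppositeClasses W (X := X) (Y := Y) g h ∧
    ∀ y, φ y = W.corr g (W.corr h y)

/-- The operator `φ` is the composite of a combination of correspondences `H(Y) → H(E)` of degree
`-c` and the push-forward along a morphism `E ⟶ Y`, with `dim E = dim Y - c`. -/
def IsSupported (W : WeilCohomology.{u, v} ops) (Y : 𝒱.Obj) (c : ℕ)
    (φ : W.H Y → W.H Y) : Prop :=
  ∃ (E : 𝒱.Obj) (f : E ⟶ Y), E.dim + c = Y.dim ∧ ∃ τ ∈ spanCycles W (Y.prod E) E.dim,
    ∀ y, φ y = W.push f (W.corr τ y)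

/-- The identity of `H(Y)` is a finite sum of operators which factor through varieties of the class
`C`, by algebraic correspondences of opposite degrees, and of operators given by correspondences
supported on `Y × Z` with `Z` of codimension `c`. -/
def ComesFromClass (W : WeilCohomology.{u, v} ops) (Y : 𝒱.Obj) (C : Set 𝒱.Obj) (c : ℕ) : Prop :=
  ∃ l : List (W.H Y → W.H Y), (∀ φ ∈ l, FactorsThrough W Y C φ ∨ IsSupported W Y c φ) ∧
    ∀ y, (l.map fun φ => φ y).sum = y

end Pool.Agent.Y100.Sg
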