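import Pool.Agent.H914R2.DDefs

/-!
# Cohomology generated by correspondences from other varieties: definition
-/

open CategoryTheory AlgebraicGeometry

universe u v

namespace Pool.Agent.Y100.Sg

open Pool.Agent.H914 VarClass Obj WeilCohomology

variable {k : Type u} [Field k] {𝒱 : VarClass k} {ops : CycleOps 𝒱}

/-- Every class in `H^j(Y)` is a sum of images of cohomology classes on varieties of the set `S`
under algebraic correspondences (of any degrees, with coefficients in `K`). -/
def IsGeneratedBy (W : WeilCohomology.{u, v} ops) (S : Set 𝒱.Obj) (Y : 𝒱.Obj) (j : ℕ) : Prop :=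
  W.gr Y j ≤ Submodule.span W.K
    {y | ∃ T ∈ S, ∃ (q : ℤ) (γ : W.H (T.prod Y)) (x : W.H T),
      γ ∈ spanCycles W (T.prod Y) q ∧ W.corr γ x = y}

end Pool.Agent.Y100.Sg
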